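import Pool.Agent.P8H44.Pert.LemB

/-!
# Locally finite perturbations: at least five colours
-/

namespace Pool.Agent.P8H44.Pert

open Function Finset

section

variable {V : Type*} {k : ℕ} {c : V → V → Fin k}

/-- The vertices in a given part. -/
noncomputable def part [Fintype V] (σ : Fin k → V → Option Bool) (t : Fin k) (o : Option Bool) :
    Finset V :=
  open Classical in Finset.univ.filter (fun v => σ t v = o)

/-- All colours are `i`-bad, with witnesses `σ`. -/
structure AllBad (c : V → V → Fin k) (i : Fin k) (σ : Fin k → V → Option Bool) : Prop where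
  ht : ∀ t, ∃ u, σ t u = some true
  hf : ∀ t, ∃ u, σ t u = some false
  hc : ∀ t u v, σ t u = some true → σ t v = some false → c u v = t
  h3 : ∀ t u v w, σ t u = none → σ t v = none → σ t w = none → u = v ∨ u = w ∨ v = w
  hi : ∀ t u v, u ≠ v → σ t u = none → σ t v = none → c u v = i

variable [Fintype V] {i : Fin k} {σ : Fin k → V → Option Bool}

theorem mem_part {t : Fin k} {o : Option Bool} {v : V} : v ∈ part σ t o ↔ σ t v = o := by
  simp [part]

theorem card_parts (t : Fin k) :
    (part σ t (some true)).card + (part σ t (some false)).card + (part σ t none).card =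
      Fintype.card V := by
  classical
  have h := Finset.card_eq_sum_card_fiberwise (f := σ t) (s := (Finset.univ : Finset V))
    (t := (Finset.univ : Finset (Option Bool))) (fun _ _ => Finset.mem_coe.2 (Finset.mem_univ _))
  rw [Fintype.sum_option, Fintype.sum_bool, Finset.card_univ] at h
  have e : ∀ o, part σ t o = Finset.univ.filter (fun v => σ t v = o) := by
    intro o
    ext v
    simp [part]
  rw [e, e, e, h]
  ring

theorem card_rem (hA : AllBad c i σ) (t : Fin k) : (part σ t none).card ≤ 2 := by
  classical
  by_contra h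
  push Not at h
  obtain ⟨a, ha, b, hb, d, hd, hab, had, hbd⟩ := Finset.two_lt_card.1 h
  rcases hA.h3 t a b d (mem_part.1 ha) (mem_part.1 hb) (mem_part.1 hd) with h | h | h
  · exact hab h
  · exact had h
  · exact hbd h

theorem side_pos (hA : AllBad c i σ) (t : Fin k) (s : Bool) :
    0 < (part σ t (some s)).card := by
  rw [Finset.card_pos]
  cases s with
  | true => obtain ⟨u, hu⟩ := hA.ht t; exact ⟨u, mem_part.2 hu⟩
  | false => obtain ⟨u, hu⟩ := hA.hf t; exact ⟨u, mem_part.2 hu⟩

theorem side_col (hs : ∀ u v, c u v = c v u) (hA : AllBad c i σ) (t : Fin k) (s : Bool) {u v : V}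
    (hu : σ t u = some s) (hv : σ t v = some (!s)) : c u v = t := by
  cases s with
  | true => exact hA.hc t u v hu hv
  | false => rw [hs]; exact hA.hc t v u hv hu

theorem side_card (s : Bool) (t : Fin k) :
    (part σ t (some s)).card + (part σ t (some (!s))).card + (part σ t none).card =
      Fintype.card V := by
  cases s with
  | true => exact card_parts t
  | false =>
    rw [← card_parts (σ := σ) t]
    simp only [Bool.not_false]
    ring

/-- A side of `t` lies inside the remainder of `u`. -/
def Dir (σ : Fin k → V → Option Bool) (t u : Fin k) : Prop :=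
  ∃ s : Bool, ∀ v, σ t v = some s → σ u v = none

/-- Grid lemma. -/
theorem grid (hs : ∀ u v, c u v = c v u) (hA : AllBad c i σ) {t u : Fin k} (htu : t ≠ u) :
    Dir σ t u ∨ Dir σ u t := by
  have key : ∀ s s' : Bool, (∃ v, σ t v = some s ∧ σ u v = some s') →
      (∃ v, σ t v = some (!s) ∧ σ u v = some (!s')) → False := by
    rintro s s' ⟨v, hv1, hv2⟩ ⟨w, hw1, hw2⟩
    exact htu ((side_col hs hA t s hv1 hw1).symm.trans (side_col hs hA u s' hv2 hw2))
  have opt : ∀ o : Option Bool, o = none ∨ o = some true ∨ o = some false := by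
    intro o
    rcases o with _ | s
    · exact Or.inl rfl
    · cases s
      · exact Or.inr (Or.inr rfl)
      · exact Or.inr (Or.inl rfl)
  have h1 : ¬ (∃ v, σ t v = some true ∧ σ u v = some true) ∨
      ¬ (∃ v, σ t v = some false ∧ σ u v = some false) := by
    by_contra h
    push Not at h
    exact key true true h.1 h.2
  have h2 : ¬ (∃ v, σ t v = some true ∧ σ u v = some false) ∨
      ¬ (∃ v, σ t v = some false ∧ σ u v = some true) := by
    by_contra h
    push Not at h
    exact key true false h.1 h.2
  rcases h1 with h1 | h1 <;> rcases h2 with h2 | h2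
  · left
    refine ⟨true, fun v hv => ?_⟩
    rcases opt (σ u v) with h | h | h
    · exact h
    · exact absurd ⟨v, hv, h⟩ h1
    · exact absurd ⟨v, hv, h⟩ h2
  · right
    refine ⟨true, fun v hv => ?_⟩
    rcases opt (σ t v) with h | h | h
    · exact h
    · exact absurd ⟨v, h, hv⟩ h1
    · exact absurd ⟨v, h, hv⟩ h2
  · right
    refine ⟨false, fun v hv => ?_⟩
    rcases opt (σ t v) with h | h | h
    · exact h
    · exact absurd ⟨v, h, hv⟩ h2
    · exact absurd ⟨v, h, hv⟩ h1
  · left
    refine ⟨false, fun v hv => ?_⟩
    rcases opt (σ u v) with h | h | h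
    · exact h
    · exact absurd ⟨v, hv, h⟩ h2
    · exact absurd ⟨v, hv, h⟩ h1

/-- Sides of different colours inside the same remainder are disjoint. -/
theorem sides_disj (hs : ∀ u v, c u v = c v u) (hA : AllBad c i σ) (hm : 7 ≤ Fintype.card V)
    {t u r : Fin k} (htu : t ≠ u) {s s' : Bool} (h1 : ∀ v, σ t v = some s → σ r v = none)
    (h2 : ∀ v, σ u v = some s' → σ r v = none) {v : V} (hv1 : σ t v = some s)
    (hv2 : σ u v = some s') : False := by
  classical
  let A := part σ t (some s)
  let A' := part σ t (some (!s))
  let B := part σ u (some s')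
  let B' := part σ u (some (!s'))
  have hAr : A ⊆ part σ r none := fun w hw => mem_part.2 (h1 w (mem_part.1 hw))
  have hBr : B ⊆ part σ r none := fun w hw => mem_part.2 (h2 w (mem_part.1 hw))
  have hr := card_rem hA r
  have hA2 : A.card ≤ 2 := (Finset.card_le_card hAr).trans hr
  have hB2 : B.card ≤ 2 := (Finset.card_le_card hBr).trans hr
  have hAc := side_card (σ := σ) s t
  have hBc := side_card (σ := σ) s' u
  have hrt := card_rem hA t
  have hru := card_rem hA u
  have hdisj : Disjoint A' B' := by
    rw [Finset.disjoint_left]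
    intro w hw1 hw2
    exact htu ((side_col hs hA t s hv1 (mem_part.1 hw1)).symm.trans
      (side_col hs hA u s' hv2 (mem_part.1 hw2)))
  have hvA : v ∈ A := mem_part.2 hv1
  have hvB : v ∈ B := mem_part.2 hv2
  have hAA : Disjoint A A' := by
    rw [Finset.disjoint_left]
    intro w hw1 hw2
    have h3 := mem_part.1 hw1
    rw [mem_part.1 hw2] at h3
    cases s <;> simp at h3
  have hBB : Disjoint B B' := by
    rw [Finset.disjoint_left]
    intro w hw1 hw2
    have h3 := mem_part.1 hw1
    rw [mem_part.1 hw2] at h3
    cases s' <;> simp at h3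
  have hAc' : A.card + A'.card + (part σ t none).card = Fintype.card V := hAc
  have hBc' : B.card + B'.card + (part σ u none).card = Fintype.card V := hBc
  by_cases hboth : A.card = 2 ∧ B.card = 2
  · have hAeq : A = part σ r none := Finset.eq_of_subset_of_card_le hAr (by omega)
    have hBeq : B = part σ r none := Finset.eq_of_subset_of_card_le hBr (by omega)
    have hsub : A ∪ (A' ∪ B') ⊆ Finset.univ := Finset.subset_univ _
    have hd : Disjoint A (A' ∪ B') := by
      rw [Finset.disjoint_union_right]
      exact ⟨hAA, by rw [hAeq, ← hBeq]; exact hBB⟩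
    have h4 := Finset.card_le_card hsub
    rw [Finset.card_union_of_disjoint hd, Finset.card_union_of_disjoint hdisj,
      Finset.card_univ] at h4
    omega
  · have hsub : {v} ∪ (A' ∪ B') ⊆ Finset.univ := Finset.subset_univ _
    have hd : Disjoint {v} (A' ∪ B') := by
      rw [Finset.disjoint_union_right]
      exact ⟨Finset.disjoint_of_subset_left (Finset.singleton_subset_iff.2 hvA) hAA,
        Finset.disjoint_of_subset_left (Finset.singleton_subset_iff.2 hvB) hBB⟩
    have h4 := Finset.card_le_card hsub
    rw [Finset.card_union_of_disjoint hd, Finset.card_union_of_disjoint hdisj,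
      Finset.card_univ, Finset.card_singleton] at h4
    omega

/-- If two colours point to `i`, then they point to each other. -/
theorem both_dir (hs : ∀ u v, c u v = c v u) (hA : AllBad c i σ) (hm : 7 ≤ Fintype.card V)
    {a b : Fin k} (hai : a ≠ i) (hab : a ≠ b) (h1 : Dir σ a i) (h2 : Dir σ b i) : Dir σ b a := by
  classical
  obtain ⟨s, h1⟩ := h1
  obtain ⟨s', h2⟩ := h2
  refine ⟨s', fun v hv => ?_⟩
  -- `v` is in the side of `b`; suppose it is not in the remainder of `a`
  rcases hva : σ a v with _ | o
  · rfl
  · exfalso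
    by_cases ho : o = s
    · rw [ho] at hva
      exact sides_disj hs hA hm hab h1 h2 hva hv
    · have ho' : o = !s := by cases o <;> cases s <;> simp_all
      rw [ho'] at hva
      have hpos := side_pos hA a s
      obtain ⟨w, hw⟩ := Finset.card_pos.1 hpos
      have hw' := mem_part.1 hw
      have h3 : c w v = a := side_col hs hA a s hw' hva
      have hne : w ≠ v := by
        rintro rfl
        rw [hw'] at hva
        cases s <;> simp at hva
      have h4 := hA.hi i w v hne (h1 w hw') (h2 v hv)
      exact hai (h3.symm.trans h4)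

/-- At least seven vertices: not all colours are bad. -/
theorem not_allBad_seven (hk : 5 ≤ k) (hs : ∀ u v, c u v = c v u)
    (hm : 7 ≤ Fintype.card V) : ¬ AllBad c i σ := by
  classical
  intro hA
  let In : Fin k → Finset (Fin k) := fun u => Finset.univ.filter (fun t => t ≠ u ∧ Dir σ t u)
  have hIn : ∀ u, (In u).card ≤ 2 := by
    intro u
    have h1 : ∀ t ∈ In u, ∃ v, σ u v = none ∧ ∃ s, (∀ v, σ t v = some s → σ u v = none) ∧
        σ t v = some s := by
      intro t ht
      simp only [In, Finset.mem_filter, Finset.mem_univ, true_and] at ht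
      obtain ⟨-, s, hs'⟩ := ht
      obtain ⟨v, hv⟩ := Finset.card_pos.1 (side_pos hA t s)
      exact ⟨v, hs' v (mem_part.1 hv), s, hs', mem_part.1 hv⟩
    have h2 : ∃ φ : Fin k → V, ∀ t ∈ In u, σ u (φ t) = none ∧
        ∃ s, (∀ v, σ t v = some s → σ u v = none) ∧ σ t (φ t) = some s := by
      have : Nonempty V := Fintype.card_pos_iff.1 (by omega)
      refine ⟨fun t => if h : t ∈ In u then (h1 t h).choose else Classical.arbitrary V, ?_⟩
      intro t ht
      simp only [dif_pos ht]
      exact (h1 t ht).choose_spec
    obtain ⟨φ, hφ⟩ := h2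
    refine le_trans ?_ (card_rem hA u)
    apply Finset.card_le_card_of_injOn φ
    · intro t ht
      exact mem_part.2 (hφ t ht).1
    · intro t ht t' ht' heq
      by_contra hne
      obtain ⟨-, s, h3, h4⟩ := hφ t ht
      obtain ⟨-, s', h5, h6⟩ := hφ t' ht'
      rw [← heq] at h6
      exact sides_disj hs hA hm hne h3 h5 h4 h6
  -- all directions
  let D : Finset (Fin k × Fin k) := Finset.univ.filter (fun p => p.1 ≠ p.2 ∧ Dir σ p.1 p.2)
  let D' : Finset (Fin k × Fin k) := Finset.univ.filter (fun p => p.1 ≠ p.2 ∧ Dir σ p.2 p.1)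
  have hDcard : D.card = ∑ u, (In u).card := by
    have h := Finset.card_eq_sum_card_fiberwise (f := Prod.snd) (s := D)
      (t := (Finset.univ : Finset (Fin k))) (fun _ _ => Finset.mem_coe.2 (Finset.mem_univ _))
    rw [h]
    apply Finset.sum_congr rfl
    intro u _
    apply Finset.card_bij (fun p _ => p.1)
    · intro p hp
      simp only [D, In, Finset.mem_filter, Finset.mem_univ, true_and] at hp ⊢
      rw [← hp.2]
      exact hp.1
    · intro p hp q hq h
      simp only [D, Finset.mem_filter, Finset.mem_univ, true_and] at hp hq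
      exact Prod.ext h (hp.2.trans hq.2.symm)
    · intro t ht
      refine ⟨(t, u), ?_, rfl⟩
      simp only [D, In, Finset.mem_filter, Finset.mem_univ, true_and] at ht ⊢
      exact ⟨ht, trivial⟩
  have hDD' : D'.card = D.card := by
    apply Finset.card_bij (fun p _ => (p.2, p.1))
    · intro p hp
      simp only [D, D', Finset.mem_filter, Finset.mem_univ, true_and] at hp ⊢
      exact ⟨hp.1.symm, hp.2⟩
    · intro p _ q _ h
      have := Prod.mk.inj h
      exact Prod.ext this.2 this.1
    · intro p hp
      refine ⟨(p.2, p.1), ?_, rfl⟩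
      simp only [D, D', Finset.mem_filter, Finset.mem_univ, true_and] at hp ⊢
      exact ⟨hp.1.symm, hp.2⟩
  have hunion : D ∪ D' = (Finset.univ : Finset (Fin k)).offDiag := by
    ext p
    simp only [D, D', Finset.mem_union, Finset.mem_filter, Finset.mem_univ, true_and,
      Finset.mem_offDiag]
    constructor
    · rintro (h | h) <;> exact h.1
    · intro h
      rcases grid hs hA h with h' | h'
      · exact Or.inl ⟨h, h'⟩
      · exact Or.inr ⟨h, h'⟩
  have hcount : k * k - k + (D ∩ D').card = D.card + D.card := by
    have h := Finset.card_union_add_card_inter D D'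
    rw [hunion, Finset.offDiag_card, Finset.card_univ, Fintype.card_fin, hDD'] at h
    exact h
  have hkk : k * k - k ≥ 4 * k := by
    have : k * k ≥ 5 * k := Nat.mul_le_mul_right k hk
    omega
  -- the sum is at most `2k`
  have hsum2 : ∑ u, (In u).card ≤ (In i).card + 2 * (k - 1) := by
    rw [← Finset.add_sum_erase Finset.univ _ (Finset.mem_univ i)]
    apply Nat.add_le_add_left
    calc ∑ u ∈ Finset.univ.erase i, (In u).card ≤ ∑ _u ∈ Finset.univ.erase i, 2 :=
          Finset.sum_le_sum (fun u _ => hIn u)
      _ = 2 * (k - 1) := by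
          rw [Finset.sum_const, Finset.card_erase_of_mem (Finset.mem_univ i), Finset.card_univ,
            Fintype.card_fin, smul_eq_mul, mul_comm]
  have hIni := hIn i
  have hIn2 : 1 < (In i).card := by omega
  have hinter : (D ∩ D').card = 0 := by omega
  obtain ⟨a, ha, b, hb, hab⟩ := Finset.one_lt_card.1 hIn2
  simp only [In, Finset.mem_filter, Finset.mem_univ, true_and] at ha hb
  have h3 := both_dir hs hA hm ha.1 hab ha.2 hb.2
  have h4 := both_dir hs hA hm hb.1 hab.symm hb.2 ha.2
  rw [Finset.card_eq_zero] at hinter
  have h5 : (a, b) ∈ D ∩ D' := by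
    simp only [D, D', Finset.mem_inter, Finset.mem_filter, Finset.mem_univ, true_and]
    exact ⟨⟨hab, h4⟩, ⟨hab, h3⟩⟩
  rw [hinter] at h5
  exact absurd h5 (Finset.notMem_empty _)

/-- The ordered pairs of colour `t`. -/
noncomputable def cls (c : V → V → Fin k) (t : Fin k) : Finset (V × V) :=
  open Classical in Finset.univ.filter (fun p => p.1 ≠ p.2 ∧ c p.1 p.2 = t)

theorem mem_cls {t : Fin k} {p : V × V} : p ∈ cls c t ↔ p.1 ≠ p.2 ∧ c p.1 p.2 = t := by
  simp [cls]

/-- The crossing pairs of the witness of `t`. -/
noncomputable def crossing (σ : Fin k → V → Option Bool) (t : Fin k) : Finset (V × V) :=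
  open Classical in
  (part σ t (some true)) ×ˢ (part σ t (some false)) ∪
    (part σ t (some false)) ×ˢ (part σ t (some true))

theorem crossing_card (t : Fin k) : (crossing σ t).card =
    2 * ((part σ t (some true)).card * (part σ t (some false)).card) := by
  classical
  unfold crossing
  rw [Finset.card_union_of_disjoint, Finset.card_product, Finset.card_product]
  · ring
  · rw [Finset.disjoint_left]
    rintro ⟨u, v⟩ h1 h2
    simp only [Finset.mem_product, mem_part] at h1 h2
    rw [h1.1] at h2
    simp at h2

theorem crossing_sub (hs : ∀ u v, c u v = c v u) (hA : AllBad c i σ) (t : Fin k) :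
    crossing σ t ⊆ cls c t := by
  classical
  rintro ⟨u, v⟩ h
  simp only [crossing, Finset.mem_union, Finset.mem_product, mem_part] at h
  rw [mem_cls]
  rcases h with h | h
  · refine ⟨?_, hA.hc t u v h.1 h.2⟩
    intro huv
    have huv' : u = v := huv
    rw [huv', h.2] at h
    simp at h
  · refine ⟨?_, by rw [hs]; exact hA.hc t v u h.2 h.1⟩
    intro huv
    have huv' : u = v := huv
    rw [huv', h.2] at h
    simp at h

/-- The remainder pairs of the witness of `t`. -/
noncomputable def rempairs (σ : Fin k → V → Option Bool) (t : Fin k) : Finset (V × V) :=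
  open Classical in (part σ t none).offDiag

theorem rem_sub (hA : AllBad c i σ) (t : Fin k) : rempairs σ t ⊆ cls c i := by
  classical
  rintro ⟨u, v⟩ h
  simp only [rempairs, Finset.mem_offDiag, mem_part] at h
  rw [mem_cls]
  exact ⟨h.2.2, hA.hi t u v h.2.2 h.1 h.2.1⟩

theorem cross_rem_disj (t : Fin k) : Disjoint (crossing σ t) (rempairs σ t) := by
  classical
  rw [Finset.disjoint_left]
  rintro ⟨u, v⟩ h1 h2
  simp only [crossing, rempairs, Finset.mem_union, Finset.mem_product, Finset.mem_offDiag,
    mem_part] at h1 h2
  rw [h2.1] at h1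
  simp at h1

theorem rempairs_card (t : Fin k) : (rempairs σ t).card =
    (part σ t none).card * (part σ t none).card - (part σ t none).card := by
  classical
  unfold rempairs
  rw [Finset.offDiag_card]

theorem prod_bound {p q : ℕ} (hp : 0 < p) (hq : 0 < q) : p + q - 1 ≤ p * q := by
  obtain ⟨p, rfl⟩ : ∃ p', p = p' + 1 := ⟨p - 1, by omega⟩
  obtain ⟨q, rfl⟩ : ∃ q', q = q' + 1 := ⟨q - 1, by omega⟩
  have : (p + 1) * (q + 1) = p * q + p + q + 1 := by ring
  omega

/-- A pair of numbers: crossing plus remainder pairs. -/
theorem both_bound (hA : AllBad c i σ) (t : Fin k) :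
    2 * Fintype.card V ≤ (crossing σ t).card + 6 ∧
    2 * Fintype.card V ≤ (crossing σ t).card + (rempairs σ t).card + 4 ∧
    2 ≤ (crossing σ t).card := by
  have h1 := card_parts (σ := σ) t
  have h2 := side_pos hA t true
  have h3 := side_pos hA t false
  have h4 := card_rem hA t
  have h5 := prod_bound h2 h3
  rw [crossing_card, rempairs_card]
  have h6 : 0 < (part σ t (some true)).card * (part σ t (some false)).card :=
    Nat.mul_pos h2 h3
  obtain ⟨r, hr⟩ : ∃ r, r = (part σ t none).card := ⟨_, rfl⟩
  rw [← hr] at h1 h4 ⊢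
  interval_cases r
  · refine ⟨by omega, by omega, by omega⟩
  · refine ⟨by omega, by omega, by omega⟩
  · refine ⟨by omega, by omega, by omega⟩

theorem sum_cls : ∑ t, (cls c t).card = Fintype.card V * Fintype.card V - Fintype.card V := by
  classical
  have h := Finset.card_eq_sum_card_fiberwise (f := fun p : V × V => c p.1 p.2)
    (s := (Finset.univ : Finset V).offDiag)
    (t := (Finset.univ : Finset (Fin k))) (fun _ _ => Finset.mem_coe.2 (Finset.mem_univ _))
  rw [Finset.offDiag_card, Finset.card_univ] at h
  rw [h]
  apply Finset.sum_congr rfl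
  intro t _
  congr 1
  ext p
  simp [cls, Finset.mem_offDiag]

/-- At most six vertices: not all colours are bad. -/
theorem not_allBad_six (hk : 5 ≤ k) (hs : ∀ u v, c u v = c v u)
    (hm : Fintype.card V ≤ 6) : ¬ AllBad c i σ := by
  classical
  intro hA
  have hsum := sum_cls (c := c)
  have hk' : Fintype.card (Fin k) = k := Fintype.card_fin k
  have hlow : ∀ t, 2 ≤ (cls c t).card := fun t =>
    (both_bound hA t).2.2.trans (Finset.card_le_card (crossing_sub hs hA t))
  have hlow2 : ∀ t, 2 * Fintype.card V ≤ (cls c t).card + 6 := fun t =>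
    (both_bound hA t).1.trans
      (Nat.add_le_add_right (Finset.card_le_card (crossing_sub hs hA t)) 6)
  have hlowi : 2 * Fintype.card V ≤ (cls c i).card + 4 := by
    refine (both_bound hA i).2.1.trans ?_
    apply Nat.add_le_add_right
    rw [← Finset.card_union_of_disjoint (cross_rem_disj i)]
    exact Finset.card_le_card (Finset.union_subset (crossing_sub hs hA i) (rem_sub hA i))
  -- lower bound for the sum
  have hsum1 : (cls c i).card + (k - 1) * 2 ≤ ∑ t, (cls c t).card := by
    rw [← Finset.add_sum_erase Finset.univ _ (Finset.mem_univ i)]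
    apply Nat.add_le_add_left
    have h := Finset.card_nsmul_le_sum (Finset.univ.erase i) (fun t => (cls c t).card) 2
      (fun t _ => hlow t)
    rw [Finset.card_erase_of_mem (Finset.mem_univ i), Finset.card_univ, hk', smul_eq_mul] at h
    exact h
  have hsum2 : (cls c i).card + (k - 1) * (2 * Fintype.card V - 6) ≤ ∑ t, (cls c t).card := by
    rw [← Finset.add_sum_erase Finset.univ _ (Finset.mem_univ i)]
    apply Nat.add_le_add_left
    have h := Finset.card_nsmul_le_sum (Finset.univ.erase i) (fun t => (cls c t).card)
      (2 * Fintype.card V - 6) (fun t _ => by have := hlow2 t; omega)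
    rw [Finset.card_erase_of_mem (Finset.mem_univ i), Finset.card_univ, hk', smul_eq_mul] at h
    exact h
  rw [hsum] at hsum1 hsum2
  have hli := hlow i
  obtain ⟨m, hmdef⟩ : ∃ m, m = Fintype.card V := ⟨_, rfl⟩
  rw [← hmdef] at hsum1 hsum2 hlowi hm
  have hm5 : m = 4 := by
    interval_cases m
    · omega
    · omega
    · omega
    · omega
    · rfl
    · omega
    · omega
  -- four vertices
  let E : Fin k → Finset (V × V) := fun t => cls c t ∪ rempairs σ t
  have hE : ∀ t, t ≠ i → 4 ≤ (E t).card := by
    intro t hti
    have hd : Disjoint (crossing σ t) (rempairs σ t) := cross_rem_disj t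
    have h1 := (both_bound hA t).2.1
    rw [← hmdef, hm5, ← Finset.card_union_of_disjoint hd] at h1
    have h2 : crossing σ t ∪ rempairs σ t ⊆ E t :=
      Finset.union_subset_union (crossing_sub hs hA t) (subset_refl _)
    have h3 := Finset.card_le_card h2
    omega
  have hdisj : ∀ t ∈ Finset.univ.erase i, ∀ t' ∈ Finset.univ.erase i, t ≠ t' →
      Disjoint (E t) (E t') := by
    intro t ht t' ht' htt'
    have hti := Finset.ne_of_mem_erase ht
    have hti' := Finset.ne_of_mem_erase ht'
    rw [Finset.disjoint_left]
    rintro ⟨u, v⟩ h1 h2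
    simp only [E, Finset.mem_union] at h1 h2
    rcases h1 with h1 | h1 <;> rcases h2 with h2 | h2
    · exact htt' ((mem_cls.1 h1).2.symm.trans (mem_cls.1 h2).2)
    · exact hti ((mem_cls.1 h1).2.symm.trans (mem_cls.1 (rem_sub hA t' h2)).2)
    · exact hti' ((mem_cls.1 h2).2.symm.trans (mem_cls.1 (rem_sub hA t h1)).2)
    · simp only [rempairs, Finset.mem_offDiag, mem_part] at h1 h2
      -- the remainders are equal to `{u, v}`
      obtain ⟨p, hp⟩ := hA.ht t
      obtain ⟨q, hq⟩ := hA.hf t
      have hpu : p ≠ u := by rintro rfl; rw [h1.1] at hp; simp at hp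
      have hpv : p ≠ v := by rintro rfl; rw [h1.2.1] at hp; simp at hp
      have hqu : q ≠ u := by rintro rfl; rw [h1.1] at hq; simp at hq
      have hqv : q ≠ v := by rintro rfl; rw [h1.2.1] at hq; simp at hq
      have hpq : p ≠ q := by rintro rfl; rw [hp] at hq; simp at hq
      have huniv : ∀ w, w = u ∨ w = v ∨ w = p ∨ w = q := by
        intro w
        by_contra hw
        push Not at hw
        have h5 : ({u, v, p, q, w} : Finset V).card ≤ Fintype.card V := Finset.card_le_univ _
        rw [Finset.card_insert_of_notMem, Finset.card_insert_of_notMem,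
          Finset.card_insert_of_notMem, Finset.card_insert_of_notMem,
          Finset.card_singleton] at h5
        · omega
        · simp only [Finset.mem_singleton]
          exact hw.2.2.2.symm
        · simp only [Finset.mem_insert, Finset.mem_singleton]
          push Not
          exact ⟨hpq, hw.2.2.1.symm⟩
        · simp only [Finset.mem_insert, Finset.mem_singleton]
          push Not
          exact ⟨hpv.symm, hqv.symm, hw.2.1.symm⟩
        · simp only [Finset.mem_insert, Finset.mem_singleton]
          push Not
          exact ⟨h1.2.2, hpu.symm, hqu.symm, hw.1.symm⟩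
      obtain ⟨p', hp'⟩ := hA.ht t'
      obtain ⟨q', hq'⟩ := hA.hf t'
      have hpu' : p' ≠ u := by rintro rfl; rw [h2.1] at hp'; simp at hp'
      have hpv' : p' ≠ v := by rintro rfl; rw [h2.2.1] at hp'; simp at hp'
      have hqu' : q' ≠ u := by rintro rfl; rw [h2.1] at hq'; simp at hq'
      have hqv' : q' ≠ v := by rintro rfl; rw [h2.2.1] at hq'; simp at hq'
      have hpq' : p' ≠ q' := by rintro rfl; rw [hp'] at hq'; simp at hq'
      have h6 := hA.hc t p q hp hq
      have h7 := hA.hc t' p' q' hp' hq'
      rcases huniv p' with h | h | h | h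
      · exact hpu' h
      · exact hpv' h
      · rcases huniv q' with h' | h' | h' | h'
        · exact hqu' h'
        · exact hqv' h'
        · exact hpq' (h.trans h'.symm)
        · rw [h, h', h6] at h7
          exact htt' h7
      · rcases huniv q' with h' | h' | h' | h'
        · exact hqu' h'
        · exact hqv' h'
        · rw [h, h', hs, h6] at h7
          exact htt' h7
        · exact hpq' (h.trans h'.symm)
  have hbig := Finset.card_biUnion hdisj
  have h8 : ((Finset.univ.erase i).biUnion E).card ≤
      ((Finset.univ : Finset V).offDiag).card := by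
    apply Finset.card_le_card
    intro p hp
    obtain ⟨t, -, ht⟩ := Finset.mem_biUnion.1 hp
    rw [Finset.mem_offDiag]
    refine ⟨Finset.mem_univ _, Finset.mem_univ _, ?_⟩
    rcases Finset.mem_union.1 ht with h | h
    · exact (mem_cls.1 h).1
    · exact (mem_cls.1 (rem_sub hA t h)).1
  rw [hbig, Finset.offDiag_card, Finset.card_univ, ← hmdef, hm5] at h8
  have h9 := Finset.card_nsmul_le_sum (Finset.univ.erase i) (fun t => (E t).card) 4
    (fun t ht => hE t (Finset.ne_of_mem_erase ht))
  rw [Finset.card_erase_of_mem (Finset.mem_univ i), Finset.card_univ, hk', smul_eq_mul] at h9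
  omega

end

/-- **Good colour lemma.** With at least five colours, for each `i` some colour is not
`i`-bad. -/
theorem exists_good {V : Type*} [Finite V] {k : ℕ} (hk : 5 ≤ k) {c : V → V → Fin k}
    (hs : ∀ u v, c u v = c v u) (i : Fin k) : ∃ t, ¬ CBad c i t := by
  classical
  have := Fintype.ofFinite V
  by_contra h
  push Not at h
  choose σ h1 h2 h3 h4 h5 using h
  have hA : AllBad c i σ := ⟨h1, h2, h3, h4, h5⟩
  rcases Nat.lt_or_ge (Fintype.card V) 7 with hm | hm
  · exact not_allBad_six hk hs (by omega) hA
  · exact not_allBad_seven hk hs hm hA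

/-- The theorem for at least five colours. -/
theorem five {V : Type*} [Finite V] {k : ℕ} (hk : 5 ≤ k) (c : V → V → Fin k)
    (hs : ∀ u v, c u v = c v u) (hall : ∀ i, ∃ u v, u ≠ v ∧ c u v = i) :
    ∃ χ : ℕ → ℕ → Fin k, (∀ m n, χ m n = χ n m) ∧ Robust c χ := by
  apply exists_robust (by omega) c hs hall
  intro i j hij
  obtain ⟨t, ht⟩ := exists_good hk hs i
  exact crit_of_good hij hs (hall j) ht

end Pool.Agent.P8H44.Pert
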