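import Mathlib

/-!
# Locally finite perturbations of edge-colourings of the countable clique: the amalgamation frame

If for each ordered pair of colours `i ≠ j` there is a recipe (`Datum`) which admits no
bad map, then there is a `c`-free colouring all of whose locally finite perturbations contain
a copy of `c`.
-/

namespace Pool.Agent.P8H44.Pert

open Function

/-- `ψ` contains a copy of the coloured complete graph `(V, c)`. -/
def HasCopy {V W : Type*} {k : ℕ} (c : V → V → Fin k) (ψ : W → W → Fin k) : Prop :=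
  ∃ f : V → W, Injective f ∧ ∀ u v : V, u ≠ v → ψ (f u) (f v) = c u v

/-- `χ` is `c`-free and each of its locally finite perturbations contains a copy of `c`. -/
def Robust {V W : Type*} {k : ℕ} (c : V → V → Fin k) (χ : W → W → Fin k) : Prop :=
  ¬ HasCopy c χ ∧
    ∀ χ' : W → W → Fin k, (∀ m n, χ' m n = χ' n m) →
      (∃ m n, m ≠ n ∧ χ' m n ≠ χ m n) →
      (∀ m, {n | m ≠ n ∧ χ' m n ≠ χ m n}.Finite) → HasCopy c χ'

/-- A recipe: the two base levels, the inner colour and the default colours. -/
structure Datum (V : Type*) (k : ℕ) where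
  x : V
  y : V
  a : Fin k
  t : V → Fin k

/-- A bad map for a recipe: the trace of a copy of `c` created by the recipe over a pair of
colour `i`. -/
structure BadMap {V : Type*} {k : ℕ} (c : V → V → Fin k) (i : Fin k) (d : Datum V k)
    (g : V → Option V) : Prop where
  top : ∃ v z, g v = some z ∧ z ≠ d.x ∧ z ≠ d.y
  ux : ∀ u v, g u = some d.x → g v = some d.x → u = v
  uy : ∀ u v, g u = some d.y → g v = some d.y → u = v
  same : ∀ u v z, u ≠ v → z ≠ d.x → z ≠ d.y → g u = some z → g v = some z → c u v = d.a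
  xy : ∀ u v, g u = some d.x → g v = some d.y → c u v = i
  diff : ∀ u v z z', g u = some z → g v = some z' → z ≠ z' → z' ≠ d.x → z' ≠ d.y →
    c u v = c z z'
  dflt : ∀ u v z, g u = none → g v = some z → z ≠ d.x → z ≠ d.y → c u v = d.t z

/-- The criterion for the ordered pair `(i, j)`. -/
def Crit {V : Type*} {k : ℕ} (c : V → V → Fin k) (i j : Fin k) : Prop :=
  ∃ d : Datum V k, d.x ≠ d.y ∧ c d.x d.y = j ∧ ∀ g, ¬ BadMap c i d g

section Construction

variable {V : Type*} {k : ℕ}

open Classical in
/-- The level actually used: levels `x`, `y` are replaced by a fixed third level `w`. -/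
noncomputable def lev (d : Datum V k) (w : V) (z : V) : V :=
  if z = d.x ∨ z = d.y then w else z

theorem lev_ne {d : Datum V k} {w : V} (hw : w ≠ d.x ∧ w ≠ d.y) (z : V) :
    lev d w z ≠ d.x ∧ lev d w z ≠ d.y := by
  unfold lev
  split_ifs with h
  · exact hw
  · push Not at h
    exact h

theorem lev_eq {d : Datum V k} {w : V} {z : V} (h1 : z ≠ d.x) (h2 : z ≠ d.y) :
    lev d w z = z := by
  unfold lev
  rw [if_neg]
  push Not
  exact ⟨h1, h2⟩

/-- Everything the construction needs. -/
structure Setup (V : Type*) (k : ℕ) where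
  c : V → V → Fin k
  symm : ∀ u v, c u v = c v u
  D : Fin k → Fin k → Datum V k
  w : Fin k → Fin k → V
  hw : ∀ i j, w i j ≠ (D i j).x ∧ w i j ≠ (D i j).y
  hxy : ∀ i j, (D i j).x ≠ (D i j).y
  hj : ∀ i j, i ≠ j → c (D i j).x (D i j).y = j
  hbad : ∀ i j g, ¬ BadMap c i (D i j) g
  κ : Fin k
  nonmono : ∃ u v, u ≠ v ∧ c u v ≠ κ
  v0 : V
  e : ℕ → (ℕ × V × ℕ) × (ℕ × V × ℕ) × Fin k
  he : Surjective e

namespace Setup

variable (S : Setup V k)

/-- The task of bag `b`. -/
def task (b : ℕ) : (ℕ × V × ℕ) × (ℕ × V × ℕ) × Fin k := S.e (Nat.unpair b).1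

open Classical in
/-- The base pair of bag `b`. -/
noncomputable def base (b : ℕ) : (ℕ × V × ℕ) × (ℕ × V × ℕ) :=
  if (S.task b).1 ≠ (S.task b).2.1 ∧ (S.task b).1.1 < b ∧ (S.task b).2.1.1 < b then
    ((S.task b).1, (S.task b).2.1) else ((0, S.v0, 0), (0, S.v0, 1))

theorem base_spec {b : ℕ} (hb : 0 < b) :
    (S.base b).1 ≠ (S.base b).2 ∧ (S.base b).1.1 < b ∧ (S.base b).2.1 < b := by
  unfold base
  split_ifs with h
  · exact h
  · refine ⟨?_, hb, hb⟩
    intro h'
    simp at h'

/-- The recipe used in bag `b` when the base pair has colour `i`. -/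
def dat (i : Fin k) (b : ℕ) : Datum V k := S.D i (S.task b).2.2

/-- The level in bag `b`. -/
noncomputable def lv (i : Fin k) (b : ℕ) (z : V) : V :=
  lev (S.dat i b) (S.w i (S.task b).2.2) z

theorem lv_ne (i : Fin k) (b : ℕ) (z : V) :
    S.lv i b z ≠ (S.dat i b).x ∧ S.lv i b z ≠ (S.dat i b).y :=
  lev_ne (S.hw i _) z

open Classical in
/-- Colour from the new vertex `p` to the older vertex `q`. -/
noncomputable def up (i : Fin k) (p q : ℕ × V × ℕ) : Fin k :=
  if q = (S.base p.1).1 then S.c (S.dat i p.1).x (S.lv i p.1 p.2.1)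
  else if q = (S.base p.1).2 then S.c (S.dat i p.1).y (S.lv i p.1 p.2.1)
  else (S.dat i p.1).t (S.lv i p.1 p.2.1)

open Classical in
/-- Colour of a pair within bag `b`, for levels `z`, `z'`. -/
noncomputable def inn (i : Fin k) (b : ℕ) (z z' : V) : Fin k :=
  if b = 0 then S.κ
  else if S.lv i b z = S.lv i b z' then (S.dat i b).a
  else S.c (S.lv i b z) (S.lv i b z')

theorem inn_symm (i : Fin k) (b : ℕ) (z z' : V) : S.inn i b z z' = S.inn i b z' z := by
  unfold inn
  by_cases h0 : b = 0
  · simp [h0]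
  · by_cases h : S.lv i b z = S.lv i b z'
    · simp [h0, h]
    · have h' : ¬ S.lv i b z' = S.lv i b z := fun e => h e.symm
      simp [h0, h, h', S.symm (S.lv i b z)]

/-- The colour of a pair given the colour `i` of the base pair of the later bag. -/
noncomputable def G (i : Fin k) (p q : ℕ × V × ℕ) : Fin k :=
  if p.1 < q.1 then S.up i q p
  else if q.1 < p.1 then S.up i p q
  else S.inn i p.1 p.2.1 q.2.1

theorem G_symm (i : Fin k) (p q : ℕ × V × ℕ) : S.G i p q = S.G i q p := by
  unfold G
  rcases lt_trichotomy p.1 q.1 with h | h | h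
  · simp [h, h.not_gt]
  · simp [h, S.inn_symm i q.1 p.2.1]
  · simp [h, h.not_gt]

open Classical in
/-- The colour of the base pair of bag `b`. -/
noncomputable def ic (b : ℕ) : Fin k :=
  if _h : max (S.base b).1.1 (S.base b).2.1 < b then
    S.G (ic (max (S.base b).1.1 (S.base b).2.1)) (S.base b).1 (S.base b).2
  else S.κ
termination_by b
decreasing_by exact _h

/-- The colouring. -/
noncomputable def col (p q : ℕ × V × ℕ) : Fin k := S.G (S.ic (max p.1 q.1)) p q

theorem col_symm (p q : ℕ × V × ℕ) : S.col p q = S.col q p := by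
  unfold col
  rw [max_comm, G_symm]

theorem ic_eq {b : ℕ} (hb : 0 < b) : S.ic b = S.col (S.base b).1 (S.base b).2 := by
  have h := S.base_spec hb
  rw [ic, dif_pos (max_lt h.2.1 h.2.2)]
  rfl

theorem col_lt {p q : ℕ × V × ℕ} (h : q.1 < p.1) : S.col p q = S.up (S.ic p.1) p q := by
  unfold col G
  rw [max_eq_left h.le, if_neg h.not_gt, if_pos h]

theorem col_same {p q : ℕ × V × ℕ} (h : p.1 = q.1) :
    S.col p q = S.inn (S.ic p.1) p.1 p.2.1 q.2.1 := by
  unfold col G
  rw [if_neg (by omega), if_neg (by omega), ← h, max_self]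

/-- The colouring is `c`-free. -/
theorem col_free [Finite V] : ¬ HasCopy S.c S.col := by
  classical
  rintro ⟨f, hf, hcol⟩
  have : Nonempty V := ⟨S.v0⟩
  obtain ⟨m, hm⟩ := Finite.exists_max (fun v => (f v).1)
  obtain ⟨b, hbdef⟩ : ∃ b, b = (f m).1 := ⟨_, rfl⟩
  have hm' : ∀ v, (f v).1 ≤ b := by
    intro v
    rw [hbdef]
    exact hm v
  rcases Nat.eq_zero_or_pos b with hb | hb
  · obtain ⟨u, v, huv, hne⟩ := S.nonmono
    have hu : (f u).1 = 0 := by have := hm' u; omega
    have hv : (f v).1 = 0 := by have := hm' v; omega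
    apply hne
    rw [← hcol u v huv, S.col_same (by rw [hu, hv])]
    unfold inn
    rw [if_pos hu]
  · have hbs := S.base_spec hb
    obtain ⟨i, hi⟩ : ∃ i, i = S.ic b := ⟨_, rfl⟩
    obtain ⟨d, hd⟩ : ∃ d, d = S.dat i b := ⟨_, rfl⟩
    have hlv : ∀ z, S.lv i b z ≠ d.x ∧ S.lv i b z ≠ d.y := by
      rw [hd]
      exact S.lv_ne i b
    have hdxy : d.x ≠ d.y := by
      rw [hd]
      exact S.hxy _ _
    -- the trace
    let g : V → Option V := fun v =>
      if (f v).1 = b then some (S.lv i b (f v).2.1)
      else if f v = (S.base b).1 then some d.x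
      else if f v = (S.base b).2 then some d.y
      else none
    -- description of `g`
    have gtop : ∀ v z, g v = some z → z ≠ d.x → z ≠ d.y →
        (f v).1 = b ∧ z = S.lv i b (f v).2.1 := by
      intro v z hv hx hy
      simp only [g] at hv
      split_ifs at hv with h1 h2 h3
      · exact ⟨h1, (Option.some.inj hv).symm⟩
      · exact absurd (Option.some.inj hv).symm hx
      · exact absurd (Option.some.inj hv).symm hy
    have gx : ∀ v, g v = some d.x → f v = (S.base b).1 := by
      intro v hv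
      simp only [g] at hv
      split_ifs at hv with h1 h2 h3
      · exact absurd (Option.some.inj hv) (hlv _).1
      · exact h2
      · exact absurd (Option.some.inj hv).symm hdxy
    have gy : ∀ v, g v = some d.y → f v = (S.base b).2 := by
      intro v hv
      simp only [g] at hv
      split_ifs at hv with h1 h2 h3
      · exact absurd (Option.some.inj hv) (hlv _).2
      · exact absurd (Option.some.inj hv) hdxy
      · exact h3
    have gn : ∀ v, g v = none → (f v).1 < b ∧ f v ≠ (S.base b).1 ∧ f v ≠ (S.base b).2 := by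
      intro v hv
      simp only [g] at hv
      split_ifs at hv with h1 h2 h3
      exact ⟨lt_of_le_of_ne (hm' v) h1, h2, h3⟩
    have hbad : ∀ g, ¬ BadMap S.c i d g := by
      rw [hd]
      exact S.hbad i (S.task b).2.2
    refine hbad g ⟨?_, ?_, ?_, ?_, ?_, ?_, ?_⟩
    · refine ⟨m, S.lv i b (f m).2.1, ?_, (hlv _).1, (hlv _).2⟩
      simp [g, ← hbdef]
    · intro u v hu hv
      exact hf ((gx u hu).trans (gx v hv).symm)
    · intro u v hu hv
      exact hf ((gy u hu).trans (gy v hv).symm)
    · intro u v z huv hzx hzy hu hv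
      obtain ⟨hu1, hu2⟩ := gtop u z hu hzx hzy
      obtain ⟨hv1, hv2⟩ := gtop v z hv hzx hzy
      rw [← hcol u v huv, S.col_same (by rw [hu1, hv1]), hu1]
      unfold inn
      rw [if_neg hb.ne', ← hi, ← hu2, ← hv2, if_pos rfl, ← hd]
    · intro u v hu hv
      have h1 := gx u hu
      have h2 := gy v hv
      have huv : u ≠ v := by
        rintro rfl
        exact hbs.1 (h1.symm.trans h2)
      rw [← hcol u v huv, h1, h2, ← S.ic_eq hb, hi]
    · intro u v z z' hu hv hzz' hx hy
      obtain ⟨hv1, hv2⟩ := gtop v z' hv hx hy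
      have huv : u ≠ v := by
        rintro rfl
        exact hzz' (Option.some.inj (hu.symm.trans hv))
      by_cases h1 : z = d.x
      · subst h1
        have h2 := gx u hu
        rw [← hcol u v huv, S.col_symm, S.col_lt (by rw [h2, hv1]; exact hbs.2.1), hv1]
        unfold up
        rw [if_pos (by rw [hv1, h2]), hv1, ← hi, ← hv2, ← hd]
      · by_cases h2 : z = d.y
        · subst h2
          have h3 := gy u hu
          rw [← hcol u v huv, S.col_symm, S.col_lt (by rw [h3, hv1]; exact hbs.2.2), hv1]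
          unfold up
          rw [if_neg (by rw [hv1, h3]; exact hbs.1.symm), if_pos (by rw [hv1, h3]), hv1, ← hi,
            ← hv2, ← hd]
        · obtain ⟨hu1, hu2⟩ := gtop u z hu h1 h2
          rw [← hcol u v huv, S.col_same (by rw [hu1, hv1]), hu1]
          unfold inn
          rw [if_neg hb.ne', ← hi, ← hu2, ← hv2, if_neg hzz']
    · intro u v z hu hv hx hy
      obtain ⟨hv1, hv2⟩ := gtop v z hv hx hy
      obtain ⟨hu1, hu2, hu3⟩ := gn u hu
      have huv : u ≠ v := by
        rintro rfl
        rw [hu] at hv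
        exact absurd hv (by simp)
      rw [← hcol u v huv, S.col_symm, S.col_lt (by rw [hv1]; exact hu1), hv1]
      unfold up
      rw [if_neg (by rw [hv1]; exact hu2), if_neg (by rw [hv1]; exact hu3), hv1, ← hi, ← hv2,
        ← hd]

end Setup

/-- Greedy choice of one index per level, avoiding finitely many bad vertices each time. -/
theorem greedy {W : Type*} [Finite V] (P : V → ℕ → W) (hP : ∀ z, Injective (P z))
    (N : W → Set W) (hN : ∀ p, (N p).Finite) (hNs : ∀ p q, q ∈ N p → p ∈ N q)
    (F : Set W) (hF : F.Finite) :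
    ∃ s : V → ℕ, (∀ z, P z (s z) ∉ F) ∧ ∀ z z', z ≠ z' → P z (s z) ∉ N (P z' (s z')) := by
  classical
  have := Fintype.ofFinite V
  suffices h : ∀ A : Finset V, ∃ s : V → ℕ, (∀ z ∈ A, P z (s z) ∉ F) ∧
      ∀ z ∈ A, ∀ z' ∈ A, z ≠ z' → P z (s z) ∉ N (P z' (s z')) by
    obtain ⟨s, h1, h2⟩ := h Finset.univ
    exact ⟨s, fun z => h1 z (Finset.mem_univ _),
      fun z z' => h2 z (Finset.mem_univ _) z' (Finset.mem_univ _)⟩
  intro A
  induction A using Finset.induction_on with
  | empty => exact ⟨fun _ => 0, by simp, by simp⟩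
  | insert z0 A hz0 ih =>
    obtain ⟨s, h1, h2⟩ := ih
    have hfin : (F ∪ ⋃ z ∈ A, N (P z (s z))).Finite := by
      apply hF.union
      exact Set.Finite.biUnion A.finite_toSet (fun z _ => hN _)
    have hfin' : ((P z0) ⁻¹' (F ∪ ⋃ z ∈ A, N (P z (s z)))).Finite :=
      hfin.preimage (hP z0).injOn
    obtain ⟨n, hn⟩ := hfin'.exists_notMem
    have hn' : P z0 n ∉ F ∧ ∀ z ∈ A, P z0 n ∉ N (P z (s z)) := by
      simp only [Set.mem_preimage, Set.mem_union, Set.mem_iUnion, not_or, not_exists] at hn
      exact ⟨hn.1, fun z hz => hn.2 z hz⟩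
    have hup : ∀ z ∈ A, update s z0 n z = s z := by
      intro z hz
      rw [update_of_ne]
      rintro rfl
      exact hz0 hz
    refine ⟨update s z0 n, ?_, ?_⟩
    · intro z hz
      rcases Finset.mem_insert.1 hz with rfl | hz
      · rw [update_self]; exact hn'.1
      · rw [hup z hz]; exact h1 z hz
    · intro z hz z' hz' hne
      rcases Finset.mem_insert.1 hz with h3 | h3
      · rcases Finset.mem_insert.1 hz' with h4 | h4
        · exact absurd (h3.trans h4.symm) hne
        · rw [h3, update_self, hup z' h4]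
          exact hn'.2 z' h4
      · rcases Finset.mem_insert.1 hz' with h4 | h4
        · rw [h4, update_self, hup z h3]
          intro hmem
          exact hn'.2 z h3 (hNs _ _ hmem)
        · rw [hup z h3, hup z' h4]
          exact h2 z h3 z' h4 hne

namespace Setup

variable (S : Setup V k)

/-- Each locally finite perturbation of the colouring contains a copy. -/
theorem col_robust [Finite V] : Robust S.c S.col := by
  classical
  refine ⟨S.col_free, ?_⟩
  intro χ' hsymm ⟨p, q, hpq, hne⟩ hlf
  -- choose the bag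
  obtain ⟨n, hn⟩ := S.he (p, q, χ' p q)
  set b := Nat.pair n (p.1 + q.1 + 1) with hb
  have hbge : p.1 + q.1 + 1 ≤ b := Nat.right_le_pair _ _
  have htask : S.task b = (p, q, χ' p q) := by
    unfold task
    rw [hb, Nat.unpair_pair]
    exact hn
  have hb0 : 0 < b := by omega
  have hbase : S.base b = (p, q) := by
    unfold base
    rw [htask]
    rw [if_pos ⟨hpq, by simp only; omega, by simp only; omega⟩]
  obtain ⟨i, hi⟩ : ∃ i, i = S.ic b := ⟨_, rfl⟩
  have hicol : i = S.col p q := by
    rw [hi, S.ic_eq hb0, hbase]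
  obtain ⟨d, hd⟩ : ∃ d, d = S.dat i b := ⟨_, rfl⟩
  have hdj : S.c d.x d.y = χ' p q := by
    have h1 := S.hj i (S.task b).2.2 (by rw [htask, hicol]; exact hne.symm)
    rw [hd]
    unfold dat
    rw [h1, htask]
  have hdxy : d.x ≠ d.y := by
    rw [hd]
    exact S.hxy _ _
  have hlv : ∀ z, z ≠ d.x → z ≠ d.y → S.lv i b z = z := by
    intro z h1 h2
    rw [hd] at h1 h2
    exact lev_eq h1 h2
  -- perturbed neighbours
  let N : ℕ × V × ℕ → Set (ℕ × V × ℕ) := fun m => {n | m ≠ n ∧ χ' m n ≠ S.col m n}
  have hN : ∀ p, (N p).Finite := hlf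
  have hNs : ∀ p q, q ∈ N p → p ∈ N q := by
    intro p q ⟨h1, h2⟩
    refine ⟨h1.symm, ?_⟩
    rw [hsymm q p, S.col_symm q p]
    exact h2
  obtain ⟨s, hs1, hs2⟩ := greedy (fun z n => (b, z, n) : V → ℕ → ℕ × V × ℕ)
    (by intro z m n h; simpa using h) N hN hNs (N p ∪ N q) ((hN p).union (hN q))
  have hpb : p.1 < b := by omega
  have hqb : q.1 < b := by omega
  have agree : ∀ m n : ℕ × V × ℕ, m ≠ n → n ∉ N m → χ' m n = S.col m n := by
    intro m n hmn hnot
    by_contra hc
    exact hnot ⟨hmn, hc⟩
  let f : V → ℕ × V × ℕ := fun z => if z = d.x then p else if z = d.y then q else (b, z, s z)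
  have fx : f d.x = p := by simp [f]
  have fy : f d.y = q := by simp [f, hdxy.symm]
  have fz : ∀ z, z ≠ d.x → z ≠ d.y → f z = (b, z, s z) := by
    intro z h1 h2
    simp [f, h1, h2]
  -- colours
  have cx : ∀ z, z ≠ d.x → z ≠ d.y → χ' p (b, z, s z) = S.c d.x z := by
    intro z h1 h2
    have hne' : p ≠ (b, z, s z) := by
      intro h
      rw [h] at hpb
      exact absurd hpb (lt_irrefl _)
    rw [agree p (b, z, s z) hne' (fun h => hs1 z (Or.inl h)), S.col_symm, S.col_lt hpb]
    unfold up
    simp only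
    rw [hbase, if_pos rfl, ← hi, hlv z h1 h2, ← hd]
  have cy : ∀ z, z ≠ d.x → z ≠ d.y → χ' q (b, z, s z) = S.c d.y z := by
    intro z h1 h2
    have hne' : q ≠ (b, z, s z) := by
      intro h
      rw [h] at hqb
      exact absurd hqb (lt_irrefl _)
    rw [agree q (b, z, s z) hne' (fun h => hs1 z (Or.inr h)), S.col_symm, S.col_lt hqb]
    unfold up
    simp only
    rw [hbase, if_neg hpq.symm, if_pos rfl, ← hi, hlv z h1 h2, ← hd]
  have cz : ∀ z z', z ≠ d.x → z ≠ d.y → z' ≠ d.x → z' ≠ d.y → z ≠ z' →
      χ' (b, z, s z) (b, z', s z') = S.c z z' := by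
    intro z z' h1 h2 h3 h4 h5
    have hne' : ((b, z, s z) : ℕ × V × ℕ) ≠ (b, z', s z') := by
      intro h
      exact h5 (congrArg (fun t => t.2.1) h)
    have hsame : S.col (b, z, s z) (b, z', s z') = S.inn (S.ic b) b z z' := S.col_same rfl
    rw [agree _ _ hne' (hs2 z' z h5.symm), hsame]
    unfold inn
    rw [if_neg hb0.ne', ← hi, hlv z h1 h2, hlv z' h3 h4, if_neg h5]
  refine ⟨f, ?_, ?_⟩
  · intro u v huv
    by_cases hux : u = d.x
    · by_cases hvx : v = d.x
      · rw [hux, hvx]
      · by_cases hvy : v = d.y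
        · rw [hux, hvy, fx, fy] at huv
          exact absurd huv hpq
        · rw [hux, fx, fz v hvx hvy] at huv
          rw [huv] at hpb
          exact absurd hpb (lt_irrefl _)
    · by_cases huy : u = d.y
      · by_cases hvx : v = d.x
        · rw [huy, hvx, fx, fy] at huv
          exact absurd huv.symm hpq
        · by_cases hvy : v = d.y
          · rw [huy, hvy]
          · rw [huy, fy, fz v hvx hvy] at huv
            rw [huv] at hqb
            exact absurd hqb (lt_irrefl _)
      · by_cases hvx : v = d.x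
        · rw [hvx, fx, fz u hux huy] at huv
          rw [← huv] at hpb
          exact absurd hpb (lt_irrefl _)
        · by_cases hvy : v = d.y
          · rw [hvy, fy, fz u hux huy] at huv
            rw [← huv] at hqb
            exact absurd hqb (lt_irrefl _)
          · rw [fz u hux huy, fz v hvx hvy] at huv
            exact congrArg (fun t => t.2.1) huv
  · intro u v huv
    by_cases hux : u = d.x
    · subst hux
      by_cases hvy : v = d.y
      · subst hvy
        rw [fx, fy, hdj]
      · rw [fx, fz v huv.symm hvy, cx v huv.symm hvy]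
    · by_cases huy : u = d.y
      · subst huy
        by_cases hvx : v = d.x
        · subst hvx
          rw [fx, fy, hsymm, S.symm, hdj]
        · rw [fy, fz v hvx huv.symm, cy v hvx huv.symm]
      · by_cases hvx : v = d.x
        · subst hvx
          rw [fx, fz u hux huy, hsymm, cx u hux huy, S.symm]
        · by_cases hvy : v = d.y
          · subst hvy
            rw [fy, fz u hux huy, hsymm, cy u hux huy, S.symm]
          · rw [fz u hux huy, fz v hvx hvy, cz u v hux huy hvx hvy huv]

end Setup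

/-- **Frame theorem.** If the criterion holds for each ordered pair of different colours then
there is a `c`-free colouring of the edges of the countable clique all of whose locally finite
perturbations contain a copy of `c`. -/
theorem exists_robust [Finite V] (hk : 2 ≤ k) (c : V → V → Fin k)
    (hsymm : ∀ u v, c u v = c v u) (hall : ∀ i, ∃ u v, u ≠ v ∧ c u v = i)
    (hcrit : ∀ i j, i ≠ j → Crit c i j) :
    ∃ χ : ℕ → ℕ → Fin k, (∀ m n, χ m n = χ n m) ∧ Robust c χ := by
  classical
  have : Nontrivial (Fin k) := Fin.nontrivial_iff_two_le.2 hk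
  have h1 : ∀ i j : Fin k, ∃ d : Datum V k, d.x ≠ d.y ∧ (i ≠ j → c d.x d.y = j) ∧
      ∀ g, ¬ BadMap c i d g := by
    intro i j
    by_cases hij : i = j
    · obtain ⟨j', hj'⟩ := exists_ne i
      obtain ⟨d, hd1, hd2, hd3⟩ := hcrit i j' hj'.symm
      exact ⟨d, hd1, fun h => absurd hij h, hd3⟩
    · obtain ⟨d, hd1, hd2, hd3⟩ := hcrit i j hij
      exact ⟨d, hd1, fun _ => hd2, hd3⟩
  choose D hD1 hD2 hD3 using h1
  have h2 : ∀ i j, ∃ w, w ≠ (D i j).x ∧ w ≠ (D i j).y := by
    intro i j
    by_contra hcon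
    push Not at hcon
    obtain ⟨l, hl⟩ := exists_ne (c (D i j).x (D i j).y)
    obtain ⟨u, v, huv, hc⟩ := hall l
    by_cases hu : u = (D i j).x
    · have hv := hcon v (by rw [← hu]; exact huv.symm)
      rw [hu, hv] at hc
      exact hl hc.symm
    · have hu' := hcon u hu
      have hv : v = (D i j).x := by
        by_contra hv
        exact huv (hu'.trans (hcon v hv).symm)
      rw [hu', hv, hsymm] at hc
      exact hl hc.symm
  choose w hw using h2
  have i0 : Fin k := ⟨0, by omega⟩
  obtain ⟨u0, -⟩ := hall i0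
  have hmono : ∃ u v, u ≠ v ∧ c u v ≠ i0 := by
    obtain ⟨l, hl⟩ := exists_ne i0
    obtain ⟨u, v, huv, hc⟩ := hall l
    exact ⟨u, v, huv, by rw [hc]; exact hl⟩
  have : Nonempty V := ⟨u0⟩
  have : Countable V := Finite.to_countable
  obtain ⟨e, he⟩ := exists_surjective_nat ((ℕ × V × ℕ) × (ℕ × V × ℕ) × Fin k)
  let S : Setup V k :=
    { c := c, symm := hsymm, D := D, w := w, hw := hw, hxy := hD1, hj := hD2, hbad := hD3,
      κ := i0, nonmono := hmono, v0 := u0, e := e, he := he }
  have hS := S.col_robust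
  obtain ⟨φ⟩ : Nonempty (ℕ × V × ℕ ≃ ℕ) := nonempty_equiv_of_countable
  refine ⟨fun m n => S.col (φ.symm m) (φ.symm n), fun m n => S.col_symm _ _, ?_, ?_⟩
  · rintro ⟨f, hf, hcol⟩
    exact hS.1 ⟨fun v => φ.symm (f v), φ.symm.injective.comp hf, hcol⟩
  · intro χ' hs ⟨m, n, hmn, hne⟩ hlf
    obtain ⟨f, hf, hcol⟩ := hS.2 (fun p q => χ' (φ p) (φ q)) (fun p q => hs _ _)
      ⟨φ.symm m, φ.symm n, fun h => hmn (φ.symm.injective h), by simpa using hne⟩ (by
        intro p
        have h3 := (hlf (φ p)).image φ.symm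
        refine h3.subset ?_
        rintro q ⟨hq1, hq2⟩
        refine ⟨φ q, ⟨fun h => hq1 (φ.injective h), ?_⟩, by simp⟩
        simpa using hq2)
    exact ⟨fun v => φ (f v), φ.injective.comp hf, hcol⟩

end Construction

end Pool.Agent.P8H44.Pert
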