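import Pool.Agent.P8H44.Pert.Frame

/-!
# Locally finite perturbations: copies of `c` living on the base pair and the new bag only
-/

namespace Pool.Agent.P8H44.Pert

open Function

/-- `u`, `v` are twins of colour `l`. -/
def Tw {V : Type*} {k : ℕ} (c : V → V → Fin k) (l : Fin k) (u v : V) : Prop :=
  u ≠ v ∧ c u v = l ∧ ∀ w, w ≠ u → w ≠ v → c u w = c v w

/-- The colouring obtained from `c` by giving the pair `xy` colour `i`. -/
noncomputable def recol {V : Type*} {k : ℕ} (c : V → V → Fin k) (x y : V) (i : Fin k) (u v : V) :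
    Fin k :=
  open Classical in
  if (u = x ∧ v = y) ∨ (u = y ∧ v = x) then i else c u v

section

variable {V : Type*} {k : ℕ} {c : V → V → Fin k}

theorem recol_symm (hs : ∀ u v, c u v = c v u) (x y : V) (i : Fin k) (u v : V) :
    recol c x y i u v = recol c x y i v u := by
  classical
  unfold recol
  by_cases h : (u = x ∧ v = y) ∨ (u = y ∧ v = x)
  · rw [if_pos h, if_pos (by tauto)]
  · rw [if_neg h, if_neg (by tauto), hs]

theorem recol_xy (x y : V) (i : Fin k) : recol c x y i x y = i := by
  classical
  unfold recol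
  rw [if_pos (Or.inl ⟨rfl, rfl⟩)]

theorem recol_ne {x y : V} {i : Fin k} {u v : V} (h1 : ¬ (u = x ∧ v = y))
    (h2 : ¬ (u = y ∧ v = x)) : recol c x y i u v = c u v := by
  classical
  unfold recol
  rw [if_neg (by tauto)]

/-- A total bad map. -/
structure TBad (c : V → V → Fin k) (i : Fin k) (x y : V) (a : Fin k) (g : V → V) : Prop where
  ux : ∀ u v, g u = x → g v = x → u = v
  uy : ∀ u v, g u = y → g v = y → u = v
  same : ∀ u v, u ≠ v → g u = g v → c u v = a
  diff : ∀ u v, g u ≠ g v → c u v = recol c x y i (g u) (g v)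

/-- **Lemma B, first case**: no twins of colour `j`. -/
theorem lemB1 [Finite V] {i j : Fin k} (hij : i ≠ j) (hs : ∀ u v, c u v = c v u)
    (hno : ∀ u v, ¬ Tw c j u v) {x y : V} (hxy : x ≠ y) (hc : c x y = j) (g : V → V) :
    ¬ TBad c i x y j g := by
  classical
  have := Fintype.ofFinite V
  intro hg
  have hinj : Injective g := by
    intro u v huv
    by_contra hne
    refine hno u v ⟨hne, hg.same u v hne huv, ?_⟩
    intro w hwu hwv
    by_cases hw : g w = g u
    · rw [hg.same u w hwu.symm hw.symm, hg.same v w hwv.symm (huv.symm.trans hw.symm)]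
    · have hw' : ¬ g w = g v := fun h => hw (h.trans huv.symm)
      rw [hg.diff u w (fun h => hw h.symm), hg.diff v w (fun h => hw' h.symm), huv]
  -- count the pairs of colour `j`
  let A : Finset (V × V) := Finset.univ.filter (fun p => p.1 ≠ p.2 ∧ c p.1 p.2 = j)
  let B : Finset (V × V) := Finset.univ.filter (fun p => p.1 ≠ p.2 ∧ recol c x y i p.1 p.2 = j)
  have hAB : A.card ≤ B.card := by
    apply Finset.card_le_card_of_injOn (fun p => (g p.1, g p.2))
    · intro p hp
      simp only [A, B, Finset.coe_filter, Finset.mem_univ, true_and, Set.mem_setOf_eq] at hp ⊢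
      have h1 : g p.1 ≠ g p.2 := fun h => hp.1 (hinj h)
      exact ⟨h1, by rw [← hg.diff p.1 p.2 h1]; exact hp.2⟩
    · intro p _ q _ h
      have h1 := Prod.mk.inj h
      exact Prod.ext (hinj h1.1) (hinj h1.2)
  have hBA : B ⊂ A := by
    rw [Finset.ssubset_iff_of_subset]
    · refine ⟨(x, y), ?_, ?_⟩
      · simp [A, hxy, hc]
      · simp only [B, Finset.mem_filter, Finset.mem_univ, true_and, not_and]
        intro _
        rw [recol_xy]
        exact hij
    · intro p hp
      simp only [A, B, Finset.mem_filter, Finset.mem_univ, true_and] at hp ⊢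
      refine ⟨hp.1, ?_⟩
      have h2 := hp.2
      by_cases h : (p.1 = x ∧ p.2 = y) ∨ (p.1 = y ∧ p.2 = x)
      · exfalso
        unfold recol at h2
        rw [if_pos h] at h2
        exact hij h2
      · rw [recol_ne (fun h' => h (Or.inl h')) (fun h' => h (Or.inr h'))] at h2
        exact h2
  exact absurd (Finset.card_lt_card hBA) (not_lt.2 hAB)

/-- **Lemma B, second case**: `x`, `y` are twins of colour `j`. -/
theorem lemB2 [Finite V] {i j : Fin k} (hij : i ≠ j) (hs : ∀ u v, c u v = c v u)
    {x y : V} (htw : Tw c j x y) (g : V → V) : ¬ TBad c i x y i g := by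
  classical
  have := Fintype.ofFinite V
  intro hg
  obtain ⟨hxy, hcxy, htwin⟩ := htw
  -- a largest set of pairwise non-twins
  let F : Finset (Finset V) := Finset.univ.filter (fun S => ∀ u ∈ S, ∀ v ∈ S, ¬ Tw c i u v)
  have hF : F.Nonempty := ⟨∅, by simp [F]⟩
  obtain ⟨S, hSF, hmax⟩ := Finset.exists_max_image F Finset.card hF
  have hS : ∀ u ∈ S, ∀ v ∈ S, ¬ Tw c i u v := by
    simpa [F] using hSF
  have hginj : Set.InjOn g S := by
    intro u hu v hv huv
    by_contra hne
    refine hS u hu v hv ⟨hne, hg.same u v hne huv, ?_⟩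
    intro w hwu hwv
    by_cases hw : g w = g u
    · rw [hg.same u w hwu.symm hw.symm, hg.same v w hwv.symm (huv.symm.trans hw.symm)]
    · have hw' : ¬ g w = g v := fun h => hw (h.trans huv.symm)
      rw [hg.diff u w (fun h => hw h.symm), hg.diff v w (fun h => hw' h.symm), huv]
  have hnt' : ∀ u ∈ S, ∀ v ∈ S, u ≠ v → ¬ Tw (recol c x y i) i (g u) (g v) := by
    rintro u hu v hv huv ⟨h1, h2, h3⟩
    refine hS u hu v hv ⟨huv, by rw [hg.diff u v h1]; exact h2, ?_⟩
    intro w hwu hwv
    by_cases hw : g w = g u
    · have hw' : g w ≠ g v := fun h => h1 (hw.symm.trans h)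
      rw [hg.same u w hwu.symm hw.symm, hg.diff v w (fun h => hw' h.symm), hw,
        recol_symm hs, h2]
    · by_cases hw' : g w = g v
      · rw [hg.same v w hwv.symm hw'.symm, hg.diff u w (fun h => hw h.symm), hw', h2]
      · rw [hg.diff u w (fun h => hw h.symm), hg.diff v w (fun h => hw' h.symm),
          h3 (g w) hw hw']
  -- `x` and `y` have no twins of colour `i`
  have hx : ∀ q, ¬ Tw c i x q := by
    rintro q ⟨h1, h2, h3⟩
    have hqy : q ≠ y := by
      rintro rfl
      exact hij (h2.symm.trans hcxy)
    have h4 : c x y = c q y := h3 y hxy.symm hqy.symm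
    have h5 : c x q = c y q := htwin q h1.symm hqy
    apply hij
    rw [← h2, h5, hs y q, ← h4, hcxy]
  have hy : ∀ q, ¬ Tw c i y q := by
    rintro q ⟨h1, h2, h3⟩
    have hqx : q ≠ x := by
      rintro rfl
      exact hij (by rw [← h2, hs, hcxy])
    have h4 : c y x = c q x := h3 x hxy hqx.symm
    have h5 : c x q = c y q := htwin q hqx h1.symm
    apply hij
    rw [← h2, ← h5, hs x q, ← h4, hs, hcxy]
  have tw_symm : ∀ u v, Tw c i u v → Tw c i v u := by
    rintro u v ⟨h1, h2, h3⟩
    exact ⟨h1.symm, by rw [hs, h2], fun w h4 h5 => (h3 w h5 h4).symm⟩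
  have hxy' : Tw (recol c x y i) i x y := by
    refine ⟨hxy, recol_xy x y i, ?_⟩
    intro w hwx hwy
    rw [recol_ne (fun h => hwy h.2) (fun h => hxy h.1),
      recol_ne (fun h => hxy h.1.symm) (fun h => hwx h.2), htwin w hwx hwy]
  have hyx' : Tw (recol c x y i) i y x := by
    refine ⟨hxy.symm, by rw [recol_symm hs, recol_xy], ?_⟩
    intro w hwy hwx
    exact (hxy'.2.2 w hwx hwy).symm
  -- the new set
  let T : Finset V := insert x (insert y (S.image g))
  have hnotboth : ¬ (x ∈ S.image g ∧ y ∈ S.image g) := by
    rintro ⟨h1, h2⟩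
    obtain ⟨u, hu, hux⟩ := Finset.mem_image.1 h1
    obtain ⟨v, hv, hvy⟩ := Finset.mem_image.1 h2
    have huv : u ≠ v := by
      rintro rfl
      exact hxy (hux.symm.trans hvy)
    refine hnt' u hu v hv huv ?_
    rw [hux, hvy]
    exact hxy'
  have himg : ∀ p ∈ S.image g, ∀ q ∈ S.image g, p ≠ q → ¬ Tw c i p q := by
    intro p hp q hq hpq htw
    obtain ⟨u, hu, rfl⟩ := Finset.mem_image.1 hp
    obtain ⟨v, hv, rfl⟩ := Finset.mem_image.1 hq
    have huv : u ≠ v := fun h => hpq (by rw [h])
    by_cases hux : g u = x
    · exact hx (g v) (by rw [← hux]; exact htw)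
    · by_cases huy : g u = y
      · exact hy (g v) (by rw [← huy]; exact htw)
      · by_cases hvx : g v = x
        · exact hx (g u) (tw_symm _ _ (by rw [← hvx]; exact htw))
        · by_cases hvy : g v = y
          · exact hy (g u) (tw_symm _ _ (by rw [← hvy]; exact htw))
          · refine hnt' u hu v hv huv ⟨htw.1, ?_, ?_⟩
            · rw [recol_ne (fun h => hux h.1) (fun h => huy h.1)]
              exact htw.2.1
            · intro w hwu hwv
              rw [recol_ne (fun h => hux h.1) (fun h => huy h.1),
                recol_ne (fun h => hvx h.1) (fun h => hvy h.1)]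
              exact htw.2.2 w hwu hwv
  have hT : ∀ u ∈ T, ∀ v ∈ T, ¬ Tw c i u v := by
    intro u hu v hv htw
    by_cases hux : u = x
    · exact hx v (by rw [← hux]; exact htw)
    · by_cases huy : u = y
      · exact hy v (by rw [← huy]; exact htw)
      · by_cases hvx : v = x
        · exact hx u (tw_symm _ _ (by rw [← hvx]; exact htw))
        · by_cases hvy : v = y
          · exact hy u (tw_symm _ _ (by rw [← hvy]; exact htw))
          · have hu' : u ∈ S.image g := by
              simpa [T, hux, huy] using hu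
            have hv' : v ∈ S.image g := by
              simpa [T, hvx, hvy] using hv
            exact himg u hu' v hv' htw.1 htw
  have hTF : T ∈ F := by
    simp only [F, Finset.mem_filter, Finset.mem_univ, true_and]
    exact hT
  have hcard : (S.image g).card = S.card := Finset.card_image_of_injOn hginj
  have hTcard : (S.image g).card < T.card := by
    apply Finset.card_lt_card
    rw [Finset.ssubset_iff_of_subset]
    · by_cases h : x ∈ S.image g
      · exact ⟨y, by simp [T], fun h' => hnotboth ⟨h, h'⟩⟩
      · exact ⟨x, by simp [T], h⟩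
    · intro p hp
      simp only [T, Finset.mem_insert]
      exact Or.inr (Or.inr hp)
  have h1 := hmax T hTF
  omega

/-- **Lemma B.** For `i ≠ j` there is a recipe of colour `j` with no total bad map. -/
theorem lemB [Finite V] {i j : Fin k} (hij : i ≠ j) (hs : ∀ u v, c u v = c v u)
    (hj : ∃ u v, u ≠ v ∧ c u v = j) :
    ∃ (x y : V) (a : Fin k), x ≠ y ∧ c x y = j ∧ ∀ g : V → V, ¬ TBad c i x y a g := by
  by_cases h : ∃ u v, Tw c j u v
  · obtain ⟨x, y, hxy⟩ := h
    exact ⟨x, y, i, hxy.1, hxy.2.1, lemB2 hij hs hxy⟩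
  · push Not at h
    obtain ⟨x, y, hxy, hc⟩ := hj
    exact ⟨x, y, j, hxy, hc, lemB1 hij hs h hxy hc⟩

/-- `t` is `i`-bad: the vertices split into two nonempty sides joined completely in colour `t`
and a remainder of at most two vertices, which if there are two have colour `i`. -/
def CBad (c : V → V → Fin k) (i t : Fin k) : Prop :=
  ∃ σ : V → Option Bool, (∃ u, σ u = some true) ∧ (∃ u, σ u = some false) ∧
    (∀ u v, σ u = some true → σ v = some false → c u v = t) ∧
    (∀ u v w, σ u = none → σ v = none → σ w = none → u = v ∨ u = w ∨ v = w) ∧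
    (∀ u v, u ≠ v → σ u = none → σ v = none → c u v = i)

/-- A colour which is not `i`-bad can serve as constant default for all pairs `(i, j)`. -/
theorem crit_of_good [Finite V] {i j t : Fin k} (hij : i ≠ j) (hs : ∀ u v, c u v = c v u)
    (hj : ∃ u v, u ≠ v ∧ c u v = j) (hgood : ¬ CBad c i t) : Crit c i j := by
  classical
  obtain ⟨x, y, a, hxy, hc, hB⟩ := lemB hij hs hj
  refine ⟨⟨x, y, a, fun _ => t⟩, hxy, hc, ?_⟩
  intro g hg
  by_cases hP : ∃ v, g v = none
  · apply hgood
    let σ : V → Option Bool := fun v =>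
      if g v = none then some true
      else if g v = some x ∨ g v = some y then none else some false
    have σt : ∀ v, σ v = some true → g v = none := by
      intro v hv
      simp only [σ] at hv
      split_ifs at hv with h1 h2
      · exact h1
      · simp at hv
    have σf : ∀ v, σ v = some false → ∃ z, g v = some z ∧ z ≠ x ∧ z ≠ y := by
      intro v hv
      simp only [σ] at hv
      split_ifs at hv with h1 h2
      · simp at hv
      · push Not at h2
        obtain ⟨z, hz⟩ := Option.ne_none_iff_exists'.1 h1
        refine ⟨z, hz, ?_, ?_⟩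
        · rintro rfl
          exact h2.1 hz
        · rintro rfl
          exact h2.2 hz
    have σn : ∀ v, σ v = none → g v = some x ∨ g v = some y := by
      intro v hv
      simp only [σ] at hv
      split_ifs at hv with h1 h2
      exact h2
    refine ⟨σ, ?_, ?_, ?_, ?_, ?_⟩
    · obtain ⟨v, hv⟩ := hP
      exact ⟨v, by simp [σ, hv]⟩
    · obtain ⟨v, z, hv, h1, h2⟩ := hg.top
      refine ⟨v, ?_⟩
      simp only at h1 h2
      simp [σ, hv, h1, h2]
    · intro u v hu hv
      obtain ⟨z, hz, h1, h2⟩ := σf v hv
      exact hg.dflt u v z (σt u hu) hz h1 h2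
    · intro u v w hu hv hw
      have hux := hg.ux
      have huy := hg.uy
      simp only at hux huy
      rcases σn u hu with h1 | h1 <;> rcases σn v hv with h2 | h2 <;> rcases σn w hw with h3 | h3
      · exact Or.inl (hux u v h1 h2)
      · exact Or.inl (hux u v h1 h2)
      · exact Or.inr (Or.inl (hux u w h1 h3))
      · exact Or.inr (Or.inr (huy v w h2 h3))
      · exact Or.inr (Or.inr (hux v w h2 h3))
      · exact Or.inr (Or.inl (huy u w h1 h3))
      · exact Or.inl (huy u v h1 h2)
      · exact Or.inl (huy u v h1 h2)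
    · intro u v huv hu hv
      have hux := hg.ux
      have huy := hg.uy
      have hxy' := hg.xy
      simp only at hux huy hxy'
      rcases σn u hu with h1 | h1 <;> rcases σn v hv with h2 | h2
      · exact absurd (hux u v h1 h2) huv
      · exact hxy' u v h1 h2
      · rw [hs]
        exact hxy' v u h2 h1
      · exact absurd (huy u v h1 h2) huv
  · push Not at hP
    have h1 : ∀ v, ∃ z, g v = some z := fun v => Option.ne_none_iff_exists'.1 (hP v)
    choose g' hg' using h1
    refine hB g' ⟨?_, ?_, ?_, ?_⟩
    · intro u v hu hv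
      exact hg.ux u v (by rw [hg', hu]) (by rw [hg', hv])
    · intro u v hu hv
      exact hg.uy u v (by rw [hg', hu]) (by rw [hg', hv])
    · intro u v huv h
      by_cases hx : g' u = x
      · exact absurd (hg.ux u v (by rw [hg', hx]) (by rw [hg', ← h, hx])) huv
      · by_cases hy : g' u = y
        · exact absurd (hg.uy u v (by rw [hg', hy]) (by rw [hg', ← h, hy])) huv
        · exact hg.same u v (g' u) huv hx hy (hg' u) (by rw [hg', h])
    · intro u v h
      by_cases hvx : g' v = x
      · by_cases huy : g' u = y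
        · rw [huy, hvx, recol_symm hs, recol_xy, hs]
          exact hg.xy v u (by rw [hg', hvx]) (by rw [hg', huy])
        · have hux : g' u ≠ x := fun h' => h (h'.trans hvx.symm)
          rw [recol_ne (fun h' => hux h'.1) (fun h' => huy h'.1), hs u v, hs (g' u)]
          exact hg.diff v u (g' v) (g' u) (hg' v) (hg' u) (fun h' => h h'.symm) hux huy
      · by_cases hvy : g' v = y
        · by_cases hux : g' u = x
          · rw [hux, hvy, recol_xy]
            exact hg.xy u v (by rw [hg', hux]) (by rw [hg', hvy])
          · have huy : g' u ≠ y := fun h' => h (h'.trans hvy.symm)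
            rw [recol_ne (fun h' => hux h'.1) (fun h' => huy h'.1), hs u v, hs (g' u)]
            exact hg.diff v u (g' v) (g' u) (hg' v) (hg' u) (fun h' => h h'.symm) hux huy
        · rw [recol_ne (fun h' => hvy h'.2) (fun h' => hvx h'.2)]
          exact hg.diff u v (g' u) (g' v) (hg' u) (hg' v) h hvx hvy

end

end Pool.Agent.P8H44.Pert
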